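import Pool.Agent.U931.Q3.Full2
import Pool.Agent.Results.MP_990a44_co.SqrtFactor

/-! A bound for ternary constant distance code pairs by the number of coordinates at which both
sets use all three letters. -/

namespace Pool.Agent.Results.MP_990a44_co.FullCoordinates

open Pool.Agent.Results.MP_990a44_co.SqrtFactor Finset Polynomial

theorem le_F (n δ : ℕ) : 2 ^ δ * n.choose δ ≤ F 3 n δ := by
  unfold F
  rw [if_neg (by norm_num), if_pos rfl]
  have h := Finset.le_sup (s := (range (δ + 1)).filter fun i => 3 * i ≤ n ∧ 2 * i ≤ δ)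
    (f := fun i => 2 ^ (δ - 2 * i) * 18 ^ i * (n - 3 * i).choose (δ - 2 * i)) (b := 0)
    (by simp)
  simpa using h

/-- Let `(A, B)` be a ternary `(n, δ)` constant distance code pair and let `R` be a set of
coordinates such that at every coordinate outside `R` one of the two sets omits a letter. Then
`|A| |B|` is at most the coefficient of `z ^ δ` in `(1 + 3 z) ^ |R| (1 + 2 z) ^ (n - |R|)`. If
`R` is empty, then `|A| |B| ≤ 2 ^ δ C(n, δ) ≤ F_3(n, δ)`. -/
theorem result (n δ : ℕ) (A B : Finset (Fin n → Fin 3)) (h : ConstDist δ A B)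
    (R : Finset (Fin n))
    (hR : ∀ j, j ∉ R → ∃ z : Fin 3, (∀ a ∈ A, a j ≠ z) ∨ (∀ b ∈ B, b j ≠ z)) :
    A.card * B.card ≤ (((1 + 3 * X) ^ R.card * (1 + 2 * X) ^ (n - R.card) : ℕ[X])).coeff δ ∧
    (R = ∅ → A.card * B.card ≤ 2 ^ δ * n.choose δ ∧ 2 ^ δ * n.choose δ ≤ F 3 n δ) := by
  have h1 := U931Q3.mainF (ι := Fin n) R n Finset.univ (by simp) δ A B
    (fun a _ i hi => absurd (Finset.mem_univ i) hi) (fun a _ i hi => absurd (Finset.mem_univ i) hi)
    h (fun j _ hj => hR j hj)
  have e1 : (Finset.univ ∩ R).card = R.card := by rw [Finset.univ_inter]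
  have e2 : (Finset.univ \ R).card = n - R.card := by
    rw [← Finset.compl_eq_univ_sdiff, Finset.card_compl, Fintype.card_fin]
  rw [e1, e2] at h1
  refine ⟨h1, fun hE => ⟨?_, le_F n δ⟩⟩
  subst hE
  rw [Finset.card_empty, Nat.sub_zero, U931Q3.Phi_nofull] at h1
  exact h1

end Pool.Agent.Results.MP_990a44_co.FullCoordinates
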