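import Pool.Agent.U931.Q3.LargeB
import Pool.Agent.Results.MP_990a44_co.SqrtFactor

/-! A bound for ternary constant distance code pairs with a factor depending on `n - δ` only. -/

namespace Pool.Agent.Results.MP_990a44_co.LargeDistance

open Pool.Agent.Results.MP_990a44_co.SqrtFactor Finset

/-- Every ternary `(n, δ)` constant distance code pair has product of cardinalities at most
`√(3 min(n, 4 (n - δ)) + 1) 2 ^ δ C(n, δ)`. -/
theorem upper_bound (n δ : ℕ) (hδ : δ ≤ n) (A B : Finset (Fin n → Fin 3))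
    (h : ConstDist δ A B) :
    (A.card * B.card : ℝ) ≤
      √(3 * (min n (4 * (n - δ)) : ℕ) + 1) * (2 ^ δ * n.choose δ : ℕ) := by
  obtain ⟨k, rfl⟩ := Nat.exists_eq_add_of_le hδ
  rw [Nat.add_sub_cancel_left]
  rcases Nat.lt_or_ge (4 * k) (δ + k) with h4 | h4
  · rw [min_eq_right h4.le]
    obtain ⟨t, ht⟩ := Nat.exists_eq_add_of_le h4.le
    have hδ' : δ = 3 * k + t := by omega
    have hmain := U931Q3.large (ι := Fin (δ + k)) k (√(3 * ((4 * k : ℕ) : ℝ) + 1))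
      (Real.sqrt_nonneg _)
      (fun S hS A B hA hB hd => U931Q3.base_bound (by omega : 3 * k ≤ 4 * k) hS hA hB hd)
      t Finset.univ (by simp; omega) A B
      (fun a _ i hi => absurd (Finset.mem_univ i) hi)
      (fun a _ i hi => absurd (Finset.mem_univ i) hi)
      (fun a ha b hb => by rw [← hδ']; exact h a ha b hb)
    rw [← ht, ← hδ'] at hmain
    exact hmain
  · rw [min_eq_left h4]
    exact star_bound (q := 3) (n := δ + k) (by norm_num) hδ (by simp [qbar]; omega) A B h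

theorem le_F (n δ : ℕ) : 2 ^ δ * n.choose δ ≤ F 3 n δ := by
  unfold F
  rw [if_neg (by norm_num), if_pos rfl]
  have h := Finset.le_sup (s := (range (δ + 1)).filter fun i => 3 * i ≤ n ∧ 2 * i ≤ δ)
    (f := fun i => 2 ^ (δ - 2 * i) * 18 ^ i * (n - 3 * i).choose (δ - 2 * i)) (b := 0)
    (by simp)
  simpa using h

/-- For all `n` and `δ ≤ n`: `2 ^ δ C(n, δ) ≤ F_3(n, δ) ≤ M_3(n, δ)` and
`M_3(n, δ) ≤ √(3 min(n, 4 (n - δ)) + 1) 2 ^ δ C(n, δ)`. -/
theorem result (n δ : ℕ) (hδ : δ ≤ n) :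
    2 ^ δ * n.choose δ ≤ F 3 n δ ∧ F 3 n δ ≤ M 3 n δ ∧
      (M 3 n δ : ℝ) ≤ √(3 * (min n (4 * (n - δ)) : ℕ) + 1) * (2 ^ δ * n.choose δ : ℕ) := by
  refine ⟨le_F n δ, lower (q := 3) (by norm_num) n δ hδ, ?_⟩
  obtain ⟨A, B, hc, hk⟩ := M_ach 3 n δ
  rw [hk, Nat.cast_mul]
  exact upper_bound n δ hδ A B hc

end Pool.Agent.Results.MP_990a44_co.LargeDistance
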