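import Pool.Agent.U931.Q3.Three
import Pool.Agent.Results.MP_990a44_co.SqrtFactor

/-! The largest product of a ternary `(n, δ)` constant distance code pair for `9 δ ≤ 4 n`. -/

namespace Pool.Agent.Results.MP_990a44_co.TernaryLowDistance

open Pool.Agent.Results.MP_990a44_co.SqrtFactor Finset

/-- Every ternary `(n, δ)` constant distance code pair with `9 δ ≤ 4 n` has product of
cardinalities at most `2 ^ δ * C(n, δ)`. -/
theorem upper_bound (n δ : ℕ) (h : 9 * δ ≤ 4 * n) (A B : Finset (Fin n → Fin 3))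
    (hd : ConstDist δ A B) : A.card * B.card ≤ 2 ^ δ * n.choose δ :=
  U931Q3.main3 (ι := Fin n) n Finset.univ (by simp) δ h A B
    (fun a _ i hi => absurd (Finset.mem_univ i) hi) (fun a _ i hi => absurd (Finset.mem_univ i) hi)
    hd

theorem le_F (n δ : ℕ) : 2 ^ δ * n.choose δ ≤ F 3 n δ := by
  unfold F
  rw [if_neg (by norm_num), if_pos rfl]
  have h := Finset.le_sup (s := (range (δ + 1)).filter fun i => 3 * i ≤ n ∧ 2 * i ≤ δ)
    (f := fun i => 2 ^ (δ - 2 * i) * 18 ^ i * (n - 3 * i).choose (δ - 2 * i)) (b := 0)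
    (by simp)
  simpa using h

/-- `M_3(n, δ) = F_3(n, δ)`, and both are equal to `2 ^ δ * C(n, δ)`, for all `n` and `δ` with
`9 δ ≤ 4 n`. -/
theorem result (n δ : ℕ) (h : 9 * δ ≤ 4 * n) :
    M 3 n δ = F 3 n δ ∧ M 3 n δ = 2 ^ δ * n.choose δ := by
  obtain ⟨A, B, hc, hk⟩ := M_ach 3 n δ
  have h1 : M 3 n δ ≤ 2 ^ δ * n.choose δ := by
    rw [hk]
    exact upper_bound n δ h A B hc
  have h2 := le_F n δ
  have h3 := lower (q := 3) (by norm_num) n δ (by omega)
  omega

end Pool.Agent.Results.MP_990a44_co.TernaryLowDistance
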